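import Pool.Agent.W523.LV.Stmts2

/-!
# Project LV, part BASE: the moments of the trapezoid wave are small
-/

set_option autoImplicit false

open Finset

namespace Pool.Agent.W174.LV

open Pool.Agent.H96R3.BC (vv UU CC cf Wts Bf EE NN KK mem_CC)
open Pool.Agent.W523.LV

/-! ### Pairing around one crossing point -/

lemma icc_succ (z ρ : ℕ) (hz : ρ + 1 ≤ z) :
    Icc (z - (ρ + 1)) (z + (ρ + 1)) = insert (z - (ρ + 1)) (insert (z + (ρ + 1)) (Icc (z - ρ) (z + ρ))) := by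
  ext n
  simp only [mem_Icc, mem_insert]
  omega

lemma pairing (z : ℕ) (T G : ℕ → ℝ) (D A : ℝ) (hD : 0 ≤ D) (h0 : T z = 0) (ρ : ℕ)
    (hz : ρ ≤ z)
    (hT : ∀ k, 1 ≤ k → k ≤ ρ → T (z + k) = -T (z - k) ∧ |T (z - k)| ≤ D)
    (hG : ∀ k, 1 ≤ k → k ≤ ρ → |G (z + k) - G (z - k)| ≤ A * (1 + 2 * k)) :
    |∑ n ∈ Icc (z - ρ) (z + ρ), T n * G n| ≤ D * A * ((ρ : ℝ) ^ 2 + 2 * ρ) := by
  induction ρ with
  | zero =>
    have e : Icc (z - 0) (z + 0) = {z} := by simp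
    rw [e, sum_singleton, h0]
    simp
  | succ ρ ih =>
    have ih' := ih (by omega) (fun k h1 h2 => hT k h1 (by omega)) (fun k h1 h2 => hG k h1 (by omega))
    have hm : z + (ρ + 1) ∉ Icc (z - ρ) (z + ρ) := by
      simp only [mem_Icc]
      omega
    have hm' : z - (ρ + 1) ∉ insert (z + (ρ + 1)) (Icc (z - ρ) (z + ρ)) := by
      simp only [mem_Icc, mem_insert]
      omega
    rw [icc_succ z ρ hz, sum_insert hm', sum_insert hm]
    obtain ⟨h1, h2⟩ := hT (ρ + 1) (by omega) le_rfl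
    have h3 := hG (ρ + 1) (by omega) le_rfl
    have e : T (z - (ρ + 1)) * G (z - (ρ + 1)) + (T (z + (ρ + 1)) * G (z + (ρ + 1)) +
        ∑ n ∈ Icc (z - ρ) (z + ρ), T n * G n) =
        -(T (z - (ρ + 1)) * (G (z + (ρ + 1)) - G (z - (ρ + 1)))) +
          ∑ n ∈ Icc (z - ρ) (z + ρ), T n * G n := by
      rw [h1]
      ring
    rw [e]
    refine (abs_add_le _ _).trans ?_
    rw [abs_neg, abs_mul]
    have h4 : |T (z - (ρ + 1))| * |G (z + (ρ + 1)) - G (z - (ρ + 1))| ≤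
        D * (A * (1 + 2 * ((ρ + 1 : ℕ) : ℝ))) :=
      mul_le_mul h2 h3 (abs_nonneg _) hD
    have h5 : D * (A * (1 + 2 * ((ρ + 1 : ℕ) : ℝ))) + D * A * ((ρ : ℝ) ^ 2 + 2 * ρ) =
        D * A * (((ρ + 1 : ℕ) : ℝ) ^ 2 + 2 * ((ρ + 1 : ℕ) : ℝ)) := by
      push_cast
      ring
    linarith

/-! ### The whole cell -/

lemma whole (M a b ρ : ℕ) (z : ℕ → ℕ) (T G : ℕ → ℝ) (D A B : ℝ) (hD : 0 ≤ D)
    (hab : a ≤ b)
    (hlo : ∀ m, m < M → a + ρ ≤ z m) (hhi : ∀ m, m < M → z m + ρ < b)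
    (hsep : ∀ m m', m < m' → m' < M → z m + 2 * ρ < z m')
    (h0 : ∀ m, m < M → T (z m) = 0)
    (hT : ∀ m, m < M → ∀ k, 1 ≤ k → k ≤ ρ → T (z m + k) = -T (z m - k))
    (hTD : ∀ n, |T n| ≤ D)
    (hG : ∀ n k, a ≤ n → n ≤ k → k < b → |G k - G n| ≤ A * (1 + ((k : ℝ) - n)))
    (hGB : ∀ n, a ≤ n → n < b → |G n| ≤ B) :
    |∑ n ∈ Ico a b, T n * G n| ≤ M * (D * A * ((ρ : ℝ) ^ 2 + 2 * ρ)) +
      ((b : ℝ) - a - M * (2 * ρ + 1)) * (D * B) := by
  obtain ⟨W, hW⟩ : ∃ W : ℕ → Finset ℕ, W = fun m => Icc (z m - ρ) (z m + ρ) := ⟨_, rfl⟩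
  obtain ⟨U, hU⟩ : ∃ U, U = (range M).biUnion W := ⟨_, rfl⟩
  have hdis : ∀ m ∈ range M, ∀ m' ∈ range M, m ≠ m' → Disjoint (W m) (W m') := by
    intro m hm m' hm' hne
    rw [mem_range] at hm hm'
    rw [Finset.disjoint_left]
    intro n hn hn'
    simp only [hW, mem_Icc] at hn hn'
    have h1 := hlo m hm
    have h2 := hlo m' hm'
    rcases lt_or_gt_of_ne hne with h | h
    · have := hsep m m' h hm'
      omega
    · have := hsep m' m h hm
      omega
  have hsub : U ⊆ Ico a b := by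
    intro n hn
    rw [hU, mem_biUnion] at hn
    obtain ⟨m, hm, hn⟩ := hn
    rw [mem_range] at hm
    simp only [hW, mem_Icc] at hn
    have h1 := hlo m hm
    have h2 := hhi m hm
    rw [mem_Ico]
    omega
  have hcardW : ∀ m ∈ range M, (W m).card = 2 * ρ + 1 := by
    intro m hm
    rw [mem_range] at hm
    have h1 := hlo m hm
    simp only [hW, Nat.card_Icc]
    omega
  have hcardU : U.card = M * (2 * ρ + 1) := by
    rw [hU, card_biUnion hdis, sum_congr rfl hcardW, sum_const, card_range, smul_eq_mul]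
  have hUsum : ∑ n ∈ U, T n * G n = ∑ m ∈ range M, ∑ n ∈ W m, T n * G n := by
    rw [hU, sum_biUnion hdis]
  have h1 : |∑ n ∈ U, T n * G n| ≤ M * (D * A * ((ρ : ℝ) ^ 2 + 2 * ρ)) := by
    rw [hUsum]
    refine (abs_sum_le_sum_abs _ _).trans ?_
    have h2 : ∀ m ∈ range M, |∑ n ∈ W m, T n * G n| ≤ D * A * ((ρ : ℝ) ^ 2 + 2 * ρ) := by
      intro m hm
      rw [mem_range] at hm
      have h3 := hlo m hm
      have h4 := hhi m hm
      simp only [hW]
      refine pairing (z m) T G D A hD (h0 m hm) ρ (by omega)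
        (fun k hk1 hk2 => ⟨hT m hm k hk1 hk2, hTD _⟩) fun k hk1 hk2 => ?_
      refine (hG (z m - k) (z m + k) (by omega) (by omega) (by omega)).trans (le_of_eq ?_)
      rw [Nat.cast_add, Nat.cast_sub (by omega)]
      ring
    refine (sum_le_sum h2).trans (le_of_eq ?_)
    rw [sum_const, card_range, nsmul_eq_mul]
  have h2 : |∑ n ∈ Ico a b \ U, T n * G n| ≤ ((b : ℝ) - a - M * (2 * ρ + 1)) * (D * B) := by
    refine (abs_sum_le_sum_abs _ _).trans ?_
    have h3 : ∀ n ∈ Ico a b \ U, |T n * G n| ≤ D * B := by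
      intro n hn
      have hn' := (mem_sdiff.1 hn).1
      rw [mem_Ico] at hn'
      rw [abs_mul]
      exact mul_le_mul (hTD n) (hGB n hn'.1 hn'.2) (abs_nonneg _) hD
    refine (sum_le_sum h3).trans (le_of_eq ?_)
    rw [sum_const, nsmul_eq_mul]
    congr 1
    have h4 := card_sdiff_add_card_eq_card hsub
    rw [hcardU, Nat.card_Ico] at h4
    have h5 : (((Ico a b \ U).card : ℕ) : ℝ) + M * (2 * ρ + 1) = (b : ℝ) - a := by
      rw [← Nat.cast_sub hab, ← h4]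
      push_cast
      ring
    linarith
  rw [← sum_sdiff hsub]
  refine (abs_add_le _ _).trans ?_
  linarith

/-! ### The wave -/

lemma wave_zero (N : ℕ) (z : ℕ → ℕ) (D : ℝ) (hD : 0 < D) (m : ℕ) (hm : m < 2 * N) :
    trap N z D (z m) = 0 := by
  unfold trap
  have h : ((z m : ℕ) : ℝ) ∈ Zs N z := ⟨m, hm, rfl⟩
  rw [Metric.infDist_zero_of_mem h, min_eq_left hD.le, mul_zero]

lemma sg_abs (N : ℕ) (z : ℕ → ℕ) (x : ℝ) : |sg N z x| = 1 := by
  unfold sg
  rw [abs_pow, abs_neg, abs_one, one_pow]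

lemma wave_le (N : ℕ) (z : ℕ → ℕ) (D : ℝ) (hD : 0 < D) (x : ℝ) : |trap N z D x| ≤ D := by
  unfold trap
  rw [abs_mul, sg_abs, one_mul, abs_of_nonneg (le_min Metric.infDist_nonneg hD.le)]
  exact min_le_right _ _

lemma infd (N : ℕ) (z : ℕ → ℕ) (m : ℕ) (hm : m < 2 * N) (x : ℝ) (d : ℝ) (hd : |x - z m| = d)
    (h : ∀ m', m' < 2 * N → d ≤ |x - z m'|) : Metric.infDist x (Zs N z) = d := by
  have hmem : ((z m : ℕ) : ℝ) ∈ Zs N z := ⟨m, hm, rfl⟩
  apply le_antisymm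
  · have := Metric.infDist_le_dist_of_mem (x := x) hmem
    rw [Real.dist_eq, hd] at this
    exact this
  · rw [Metric.le_infDist ⟨_, hmem⟩]
    rintro y ⟨m', hm', rfl⟩
    rw [Real.dist_eq]
    exact h m' hm'

lemma sg_of (N : ℕ) (z : ℕ → ℕ) (x : ℝ) (m : ℕ) (hm : m ≤ 2 * N)
    (h1 : ∀ m', m' < m → (z m' : ℝ) ≤ x) (h2 : ∀ m', m ≤ m' → m' < 2 * N → x < (z m' : ℝ)) :
    sg N z x = (-1) ^ m := by
  classical
  unfold sg
  congr 1
  have e : (range (2 * N)).filter (fun m => (z m : ℝ) ≤ x) = range m := by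
    ext m'
    simp only [mem_filter, mem_range]
    constructor
    · rintro ⟨h3, h4⟩
      by_contra hcon
      exact absurd h4 (not_le.2 (h2 m' (by omega) h3))
    · intro h3
      exact ⟨by omega, h1 m' h3⟩
  rw [e, card_range]

lemma wave_odd (N : ℕ) (z : ℕ → ℕ) (D : ℝ) (ρ : ℕ)
    (hsep : ∀ m m', m < m' → m' < 2 * N → z m + 2 * ρ < z m') (m : ℕ) (hm : m < 2 * N)
    (hz : ρ ≤ z m) (k : ℕ) (hk1 : 1 ≤ k) (hk2 : k ≤ ρ) :
    trap N z D ((z m + k : ℕ) : ℝ) = -trap N z D ((z m - k : ℕ) : ℝ) := by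
  have hk0 : (1 : ℝ) ≤ k := by exact_mod_cast hk1
  have hkρ : (k : ℝ) ≤ ρ := by exact_mod_cast hk2
  have e1 : ((z m + k : ℕ) : ℝ) = (z m : ℝ) + k := by push_cast; ring
  have e2 : ((z m - k : ℕ) : ℝ) = (z m : ℝ) - k := by
    rw [Nat.cast_sub (by omega)]
  have hs1 : ∀ m', m < m' → m' < 2 * N → (z m : ℝ) + 2 * ρ < z m' := by
    intro m' h1 h2
    exact_mod_cast hsep m m' h1 h2
  have hs2 : ∀ m', m' < m → (z m' : ℝ) + 2 * ρ < z m := by
    intro m' h1
    exact_mod_cast hsep m' m h1 hm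
  have i1 : Metric.infDist ((z m : ℝ) + k) (Zs N z) = k := by
    refine infd N z m hm _ _ (by rw [add_sub_cancel_left, abs_of_nonneg (by linarith)]) ?_
    intro m' hm'
    rcases lt_trichotomy m' m with h | h | h
    · have := hs2 m' h
      refine le_trans ?_ (le_abs_self _)
      linarith
    · rw [h, add_sub_cancel_left, abs_of_nonneg (by linarith)]
    · have := hs1 m' h hm'
      refine le_trans ?_ (neg_le_abs _)
      linarith
  have i2 : Metric.infDist ((z m : ℝ) - k) (Zs N z) = k := by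
    refine infd N z m hm _ _ (by rw [sub_sub_cancel_left, abs_neg, abs_of_nonneg (by linarith)]) ?_
    intro m' hm'
    rcases lt_trichotomy m' m with h | h | h
    · have := hs2 m' h
      refine le_trans ?_ (le_abs_self _)
      linarith
    · rw [h, sub_sub_cancel_left, abs_neg, abs_of_nonneg (by linarith)]
    · have := hs1 m' h hm'
      refine le_trans ?_ (neg_le_abs _)
      linarith
  have s1 : sg N z ((z m : ℝ) + k) = (-1) ^ (m + 1) := by
    refine sg_of N z _ (m + 1) (by omega) ?_ ?_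
    · intro m' hm'
      rcases Nat.lt_or_ge m' m with h | h
      · have := hs2 m' h
        linarith
      · have : m' = m := by omega
        rw [this]
        linarith
    · intro m' hm1 hm2
      have := hs1 m' (by omega) hm2
      linarith
  have s2 : sg N z ((z m : ℝ) - k) = (-1) ^ m := by
    refine sg_of N z _ m (by omega) ?_ ?_
    · intro m' hm'
      have := hs2 m' hm'
      linarith
    · intro m' hm1 hm2
      rcases Nat.lt_or_ge m m' with h | h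
      · have := hs1 m' h hm2
        linarith
      · have : m' = m := by omega
        rw [this]
        linarith
  unfold trap
  rw [e1, e2, i1, i2, s1, s2, pow_succ]
  ring

/-! ### Bounds of the test weights -/

lemma gbound (j nmq len C om1 t : ℝ) (g : ℝ) (hj : 1 ≤ j) (hn : 0 ≤ nmq) (hlen : 1 ≤ len)
    (hC : 0 < C) (h1 : |2 * j * g - om1 * t| ≤ C * nmq / len ^ 2) (h2 : 0 ≤ om1)
    (h3 : om1 ≤ 2 / len) (h4 : |t| ≤ nmq) : |g| ≤ (1 + C) * nmq / (j * len) := by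
  have hl : 0 < len := by linarith
  have hj0 : 0 < j := by linarith
  have h5 : |om1 * t| ≤ 2 / len * nmq := by
    rw [abs_mul, abs_of_nonneg h2]
    exact mul_le_mul h3 h4 (abs_nonneg _) (by positivity)
  have h6 : C * nmq / len ^ 2 ≤ C * nmq / len := by
    apply div_le_div_of_nonneg_left (by positivity) hl
    nlinarith
  have h7 : |2 * j * g| ≤ C * nmq / len + 2 / len * nmq := by
    have : 2 * j * g = (2 * j * g - om1 * t) + om1 * t := by ring
    rw [this]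
    refine (abs_add_le _ _).trans ?_
    linarith
  rw [abs_mul, abs_of_pos (by positivity : 0 < 2 * j)] at h7
  rw [le_div_iff₀ (by positivity)]
  have h8 : 2 * j * |g| * len ≤ (C * nmq / len + 2 / len * nmq) * len :=
    mul_le_mul_of_nonneg_right h7 hl.le
  have h9 : (C * nmq / len + 2 / len * nmq) * len = C * nmq + 2 * nmq := by
    field_simp
  rw [h9] at h8
  have : 0 ≤ C * nmq := by positivity
  nlinarith

lemma gdiff (j nmq len C K om1 om2 t1 t2 g1 g2 d : ℝ) (hj : 1 ≤ j) (hn : 0 ≤ nmq) (hlen : 1 ≤ len)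
    (hC : 0 < C) (hK : 0 ≤ K) (hd : 0 ≤ d) (h1 : |2 * j * g1 - om1 * t1| ≤ C * nmq / len ^ 2)
    (h1' : |2 * j * g2 - om2 * t2| ≤ C * nmq / len ^ 2)
    (h2 : 0 ≤ om2) (h3 : om2 ≤ 2 / len) (h4 : |t1| ≤ nmq)
    (h5 : |om1 - om2| ≤ C * d / len ^ 2) (h6 : |t1 - t2| ≤ K * nmq * (2 * d / len)) :
    |g2 - g1| ≤ (C + 2 * K) * nmq / (j * len ^ 2) * (1 + d) := by
  have hl : 0 < len := by linarith
  have hj0 : 0 < j := by linarith
  have e : 2 * j * (g2 - g1) = (2 * j * g2 - om2 * t2) - (2 * j * g1 - om1 * t1) -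
      (om1 - om2) * t1 - om2 * (t1 - t2) := by ring
  have h7 : |(om1 - om2) * t1| ≤ C * d / len ^ 2 * nmq := by
    rw [abs_mul]
    exact mul_le_mul h5 h4 (abs_nonneg _) (by positivity)
  have h8 : |om2 * (t1 - t2)| ≤ 2 / len * (K * nmq * (2 * d / len)) := by
    rw [abs_mul, abs_of_nonneg h2]
    exact mul_le_mul h3 h6 (abs_nonneg _) (by positivity)
  have h9 : |2 * j * (g2 - g1)| ≤ C * nmq / len ^ 2 + C * nmq / len ^ 2 + C * d / len ^ 2 * nmq +
      2 / len * (K * nmq * (2 * d / len)) := by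
    rw [e]
    refine (abs_sub _ _).trans ?_
    have := (abs_sub ((2 * j * g2 - om2 * t2) - (2 * j * g1 - om1 * t1)) ((om1 - om2) * t1))
    have h10 := abs_sub (2 * j * g2 - om2 * t2) (2 * j * g1 - om1 * t1)
    linarith
  rw [abs_mul, abs_of_pos (by positivity : 0 < 2 * j)] at h9
  have h10 : C * nmq / len ^ 2 + C * nmq / len ^ 2 + C * d / len ^ 2 * nmq +
      2 / len * (K * nmq * (2 * d / len)) = (2 * C + C * d + 4 * K * d) * nmq / len ^ 2 := by
    field_simp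
    ring
  rw [h10] at h9
  have h11 : (C + 2 * K) * nmq / (j * len ^ 2) * (1 + d) =
      (2 * ((C + 2 * K) * (1 + d)) * nmq / len ^ 2) / (2 * j) := by
    field_simp
  rw [h11, le_div_iff₀ (by positivity), mul_comm]
  refine h9.trans ?_
  apply div_le_div_of_nonneg_right _ (by positivity)
  apply mul_le_mul_of_nonneg_right _ hn
  nlinarith [mul_nonneg hC.le hd, mul_nonneg hK hd]

lemma final_arith (C K D j nmq len N ρ : ℝ) (hC : 0 < C) (hK : 0 ≤ K) (hD : 0 < D) (hj : 1 ≤ j)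
    (hn : 0 ≤ nmq) (hN : 1 ≤ N) (hlen : 4 * N ^ 2 ≤ len) (h0 : 0 ≤ ρ) (h1 : ρ ≤ len / (4 * N))
    (h2 : len / (4 * N) - 4 * (1 / (100 * N ^ 2) * len) - 1 ≤ ρ) :
    2 * N * (D * ((C + 2 * K) * nmq / (j * len ^ 2)) * (ρ ^ 2 + 2 * ρ)) +
      (len - 2 * N * (2 * ρ + 1)) * (D * ((1 + C) * nmq / (j * len))) ≤
    ((C + 2 * K) + (1 + C)) * D / N * nmq / j := by
  have hN0 : 0 < N := by linarith
  have hl : 0 < len := by nlinarith
  have hj0 : 0 < j := by linarith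
  -- first part
  have a1 : 2 * N * (ρ ^ 2 + 2 * ρ) ≤ len ^ 2 / N := by
    obtain ⟨u, hu⟩ : ∃ u, u = len / (4 * N) := ⟨_, rfl⟩
    have hlu : len = 4 * N * u := by rw [hu]; field_simp
    have hu1 : N ≤ u := by
      rw [hu, le_div_iff₀ (by positivity)]
      nlinarith
    rw [← hu] at h1
    have e : len ^ 2 / N = 16 * N * u ^ 2 := by rw [hlu]; field_simp; ring
    rw [e]
    have h3 : ρ ^ 2 ≤ u ^ 2 := pow_le_pow_left₀ h0 h1 2
    have h4 : ρ ≤ u ^ 2 := by nlinarith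
    nlinarith [mul_nonneg hN0.le (sq_nonneg u)]
  -- second part
  have a2 : len - 2 * N * (2 * ρ + 1) ≤ len / N := by
    have h3 : 4 * N * (len / (4 * N)) = len := by field_simp
    have h4 : 4 * N * (4 * (1 / (100 * N ^ 2) * len)) = 4 / 25 * (len / N) := by
      field_simp
      norm_num
    have h5 : 4 * N ≤ len / N := by
      rw [le_div_iff₀ hN0]
      nlinarith
    have h6 : 4 * N * (len / (4 * N) - 4 * (1 / (100 * N ^ 2) * len) - 1) ≤ 4 * N * ρ :=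
      mul_le_mul_of_nonneg_left h2 (by positivity)
    have h7 : 4 * N * (len / (4 * N) - 4 * (1 / (100 * N ^ 2) * len) - 1) =
        len - 4 / 25 * (len / N) - 4 * N := by
      rw [← h4]
      linear_combination h3
    have h8 : 0 < len / N := by positivity
    rw [h7] at h6
    nlinarith
  have b1 : 2 * N * (D * ((C + 2 * K) * nmq / (j * len ^ 2)) * (ρ ^ 2 + 2 * ρ)) ≤
      (C + 2 * K) * D / N * nmq / j := by
    have e1 : 2 * N * (D * ((C + 2 * K) * nmq / (j * len ^ 2)) * (ρ ^ 2 + 2 * ρ)) =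
        (D * ((C + 2 * K) * nmq / (j * len ^ 2))) * (2 * N * (ρ ^ 2 + 2 * ρ)) := by ring
    have e2 : (C + 2 * K) * D / N * nmq / j =
        (D * ((C + 2 * K) * nmq / (j * len ^ 2))) * (len ^ 2 / N) := by
      field_simp
    rw [e1, e2]
    exact mul_le_mul_of_nonneg_left a1 (by positivity)
  have b2 : (len - 2 * N * (2 * ρ + 1)) * (D * ((1 + C) * nmq / (j * len))) ≤
      (1 + C) * D / N * nmq / j := by
    have e2 : (1 + C) * D / N * nmq / j = (len / N) * (D * ((1 + C) * nmq / (j * len))) := by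
      field_simp
    rw [e2]
    exact mul_le_mul_of_nonneg_right a2 (by positivity)
  refine (add_le_add b1 b2).trans (le_of_eq ?_)
  ring

lemma len_facts (Q J : ℕ) (hQ : 1 ≤ Q) (hJ : 1 ≤ J) :
    J ^ (2 * Q) + (Pool.Agent.H96R3.BC.CC Q J).card = (J + 1) ^ (2 * Q) ∧
      J ≤ (Pool.Agent.H96R3.BC.CC Q J).card := by
  have h1 : (Pool.Agent.H96R3.BC.CC Q J).card = (J + 1) ^ (2 * Q) - J ^ (2 * Q) := by
    unfold Pool.Agent.H96R3.BC.CC
    rw [Nat.card_Ioc]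
  obtain ⟨k, hk⟩ : ∃ k, 2 * Q = k + 2 := ⟨2 * Q - 2, by omega⟩
  have h2 : J ^ (2 * Q) + J ≤ (J + 1) ^ (2 * Q) := by
    rw [hk]
    have h3 : J ^ (k + 1) ≤ (J + 1) ^ (k + 1) := Nat.pow_le_pow_left (by omega) _
    have h4 : J ≤ J ^ (k + 1) := Nat.le_self_pow (by omega) _
    have e1 : (J + 1) ^ (k + 2) = (J + 1) ^ (k + 1) * (J + 1) := pow_succ _ _
    have e2 : J ^ (k + 2) = J ^ (k + 1) * J := pow_succ _ _
    rw [e1, e2]
    nlinarith
  constructor
  · omega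
  · omega

lemma nm_nonneg (K : ℕ) (q : Polynomial ℝ) : 0 ≤ nm K q := by
  unfold nm
  exact sum_nonneg fun _ _ => abs_nonneg _

theorem taskBaseM (h : TaskGrid) : TaskBaseM := by
  intro Q hQ
  obtain ⟨C, hC, J₁, hgrid⟩ := h Q hQ
  refine ⟨(C + 2 * (4 * (Q : ℝ) + 4)) + (1 + C), by positivity, fun N hN => ?_⟩
  have hN1 : (1 : ℝ) ≤ N := by exact_mod_cast hN
  have hN0 : (0 : ℝ) < N := by linarith
  refine ⟨1 / (100 * (N : ℝ) ^ 2), by positivity, max J₁ (4 * N ^ 2 + 1), ?_⟩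
  intro J j₀ hJ hj1 hjJ z hz D₀ hD₀ _ q hq
  have hJ₁ : J₁ ≤ J := le_trans (le_max_left _ _) hJ
  have hJN : 4 * N ^ 2 + 1 ≤ J := le_trans (le_max_right _ _) hJ
  obtain ⟨hab, hJlen⟩ := len_facts Q J hQ (by omega)
  obtain ⟨⟨ga, gb⟩, g2, g3, g4, -, g6, g7⟩ := hgrid J j₀ hJ₁ hj1 hjJ
  obtain ⟨a, ha⟩ : ∃ a, a = J ^ (2 * Q) := ⟨_, rfl⟩
  obtain ⟨b, hb⟩ : ∃ b, b = (J + 1) ^ (2 * Q) := ⟨_, rfl⟩
  obtain ⟨ln, hln⟩ : ∃ ln, ln = (CC Q J).card := ⟨_, rfl⟩
  have haR : ((J : ℝ) ^ (2 * Q)) = a := by rw [ha]; push_cast; ring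
  rw [haR] at hz
  rw [← ha, ← hb] at g2 g3 g4 g6 ⊢
  rw [← ha] at ga
  rw [← hb] at gb
  rw [← hln] at hz g2 g3 g4 g6
  rw [← ha, ← hb, ← hln] at hab
  rw [← hln] at hJlen
  have hlenN : 4 * (N : ℝ) ^ 2 ≤ ln := by
    have : 4 * N ^ 2 ≤ ln := by omega
    exact_mod_cast this
  have hl1 : (1 : ℝ) ≤ ln := by nlinarith
  have hl0 : (0 : ℝ) < ln := by linarith
  have hbR : (b : ℝ) = a + ln := by rw [← hab]; push_cast; ring
  have hj : (1 : ℝ) ≤ j₀ := by exact_mod_cast hj1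
  have hn := nm_nonneg (4 * Q + 4) q
  obtain ⟨u, hu⟩ : ∃ u, u = (ln : ℝ) / (4 * N) := ⟨_, rfl⟩
  obtain ⟨e, he⟩ : ∃ e, e = 1 / (100 * (N : ℝ) ^ 2) * ln := ⟨_, rfl⟩
  have hu0 : 0 < u := by rw [hu]; positivity
  have he0 : 0 < e := by rw [he]; positivity
  have hlu : (ln : ℝ) = 4 * N * u := by rw [hu]; field_simp
  have heu : 4 * e ≤ u := by
    rw [he, hu]
    have h1 : 4 * (1 / (100 * (N : ℝ) ^ 2) * ln) = (ln / (4 * N)) * (4 / (25 * N)) := by
      field_simp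
      norm_num
    rw [h1]
    have h2 : 4 / (25 * (N : ℝ)) ≤ 1 := by
      rw [div_le_one (by positivity)]
      linarith
    have h3 : 0 < (ln : ℝ) / (4 * N) := by positivity
    nlinarith
  have hz' : ∀ m, m < 2 * N → |(z m : ℝ) - (a + (2 * m + 1) * u)| ≤ e := by
    intro m hm
    have h1 := hz m hm
    rw [← he] at h1
    have h2 : (2 * (m : ℝ) + 1) / (4 * N) * ln = (2 * m + 1) * u := by
      rw [hu]
      ring
    rw [h2] at h1
    exact h1
  obtain ⟨ρ, hρ⟩ : ∃ ρ, ρ = ⌊u - 4 * e⌋₊ := ⟨_, rfl⟩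
  have hρ1 : (ρ : ℝ) ≤ u - 4 * e := by
    rw [hρ]
    exact Nat.floor_le (by linarith)
  have hρ2 : u - 4 * e < ρ + 1 := by
    rw [hρ]
    exact Nat.lt_floor_add_one _
  have hlo : ∀ m, m < 2 * N → a + ρ ≤ z m := by
    intro m hm
    have h1 := (abs_le.1 (hz' m hm)).1
    have h2 : (0 : ℝ) ≤ m := Nat.cast_nonneg m
    have h3 : (a : ℝ) + ρ ≤ z m := by nlinarith [mul_nonneg h2 hu0.le]
    exact_mod_cast h3
  have hhi : ∀ m, m < 2 * N → z m + ρ < b := by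
    intro m hm
    have h1 := (abs_le.1 (hz' m hm)).2
    have h2 : (m : ℝ) + 1 ≤ 2 * N := by exact_mod_cast hm
    have h4 : ((m : ℝ) + 1) * u ≤ 2 * N * u := mul_le_mul_of_nonneg_right h2 hu0.le
    have h3 : (z m : ℝ) + ρ < b := by
      rw [hbR, hlu]
      nlinarith
    exact_mod_cast h3
  have hsep : ∀ m m', m < m' → m' < 2 * N → z m + 2 * ρ < z m' := by
    intro m m' hmm hm'
    have h1 := (abs_le.1 (hz' m (by omega))).2
    have h2 := (abs_le.1 (hz' m' hm')).1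
    have h3 : (m : ℝ) + 1 ≤ m' := by exact_mod_cast hmm
    have h4 : ((m : ℝ) + 1) * u ≤ m' * u := mul_le_mul_of_nonneg_right h3 hu0.le
    have h5 : (z m : ℝ) + 2 * ρ < z m' := by nlinarith
    exact_mod_cast h5
  have htau : ∀ n : ℕ, a ≤ n → n < b → 0 ≤ tau j₀ J (vv Q j₀ n) ∧ tau j₀ J (vv Q j₀ n) ≤ 1 := by
    intro n h1 h2
    have h3 := (g2 a n le_rfl h1 (by omega)).1
    have h4 := (g2 n b h1 h2.le le_rfl).1
    rw [ga] at h3
    rw [gb] at h4
    have h5 : (a : ℝ) ≤ n := by exact_mod_cast h1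
    have h6 : (n : ℝ) ≤ b := by exact_mod_cast h2.le
    have h7 : 0 ≤ ((n : ℝ) - a) / (2 * ln) := div_nonneg (by linarith) (by positivity)
    have h8 : 0 ≤ ((b : ℝ) - n) / (2 * ln) := div_nonneg (by linarith) (by positivity)
    constructor <;> linarith
  have hom : ∀ n : ℕ, a ≤ n → n < b → 0 ≤ om Q n := by
    intro n h1 h2
    have h3 := (g3 n h1 h2).1
    have h4 : 0 ≤ 1 / (2 * (ln : ℝ)) := by positivity
    linarith
  have hGB : ∀ n, a ≤ n → n < b → |gw Q j₀ J q n| ≤ (1 + C) * nm (4 * Q + 4) q / (j₀ * ln) := by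
    intro n h1 h2
    have ht := htau n h1 h2
    exact gbound j₀ (nm (4 * Q + 4) q) ln C (om Q n) (q.eval (tau j₀ J (vv Q j₀ n))) _ hj hn hl1 hC
      (g6 q hq n h1 h2) (hom n h1 h2) (g3 n h1 h2).2 (g7 q hq _ _ ht.1 ht.2 ht.1 ht.2).1
  have hG : ∀ n k, a ≤ n → n ≤ k → k < b → |gw Q j₀ J q k - gw Q j₀ J q n| ≤
      (C + 2 * (4 * (Q : ℝ) + 4)) * nm (4 * Q + 4) q / (j₀ * (ln : ℝ) ^ 2) *
        (1 + ((k : ℝ) - n)) := by
    intro n k h1 h2 h3
    have htn := htau n h1 (by omega)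
    have htk := htau k (by omega) h3
    have hd : (0 : ℝ) ≤ (k : ℝ) - n := by
      have : (n : ℝ) ≤ k := by exact_mod_cast h2
      linarith
    have ht := g2 n k h1 h2 h3.le
    have h8 : 0 ≤ ((k : ℝ) - n) / (2 * ln) := div_nonneg hd (by positivity)
    refine gdiff j₀ (nm (4 * Q + 4) q) ln C (4 * (Q : ℝ) + 4) (om Q n) (om Q k)
      (q.eval (tau j₀ J (vv Q j₀ n))) (q.eval (tau j₀ J (vv Q j₀ k))) _ _ _ hj hn hl1 hC
      (by positivity) hd (g6 q hq n h1 (by omega)) (g6 q hq k (by omega) h3)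
      (hom k (by omega) h3) (g3 k (by omega) h3).2
      (g7 q hq _ _ htn.1 htn.2 htn.1 htn.2).1 (g4 n k h1 h2 h3) ?_
    refine (g7 q hq _ _ htn.1 htn.2 htk.1 htk.2).2.trans ?_
    refine mul_le_mul_of_nonneg_left ?_ (by positivity)
    rw [abs_sub_comm, abs_of_nonneg (by linarith)]
    exact ht.2
  have key := whole (2 * N) a b ρ z (fun n => trap N z D₀ n) (fun n => gw Q j₀ J q n) D₀
    ((C + 2 * (4 * (Q : ℝ) + 4)) * nm (4 * Q + 4) q / (j₀ * (ln : ℝ) ^ 2))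
    ((1 + C) * nm (4 * Q + 4) q / (j₀ * ln)) hD₀.le (by omega) hlo hhi hsep
    (fun m hm => wave_zero N z D₀ hD₀ m hm)
    (fun m hm k hk1 hk2 => wave_odd N z D₀ ρ hsep m hm (by have := hlo m hm; omega) k hk1 hk2)
    (fun n => wave_le N z D₀ hD₀ _) hG hGB
  refine key.trans ?_
  have e1 : (b : ℝ) - a = ln := by rw [hbR]; ring
  rw [e1]
  push_cast
  refine final_arith C (4 * (Q : ℝ) + 4) D₀ j₀ (nm (4 * Q + 4) q) ln N ρ hC (by positivity) hD₀ hj
    hn hN1 hlenN (Nat.cast_nonneg _) ?_ ?_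
  · rw [← hu]
    linarith
  · rw [← hu, ← he]
    linarith

end Pool.Agent.W174.LV
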